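import Mathlib
import Pool.Agent.Y644.Arr.Quot

/-!
# MP_a74b27_gt: at most two-to-one images of perfectly normal extendial compacta

A stronger form of the negative answers to Q1 and Q2: the space `X` and its image `Y` are
zero-dimensional, first countable, separable, hereditarily Lindelof, perfectly normal compact
spaces, and the map is at most two-to-one.
-/

set_option autoImplicit false

open Set Topology

namespace Pool.Agent.Results.MP_a74b27_gt.TwoToOneImage

open Pool.Agent.H151 Pool.Agent.H151.Ext Pool.Agent.Y644.Arr

/-- There are a compact space `X` and a compact space `Y`, both perfectly normal Hausdorff (`T6`),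
hereditarily Lindelof, first countable, separable and totally disconnected, and a continuous
surjection `f : X → Y` for which every point of `Y` has at most two preimages, such that `X` is
extendial (hence t-extendial) and `Y` is not t-extendial (hence not extendial). -/
theorem result :
    ∃ (X Y : Type) (_ : TopologicalSpace X) (_ : TopologicalSpace Y) (f : X → Y),
      (CompactSpace X ∧ T6Space X ∧ HereditarilyLindelofSpace X ∧ FirstCountableTopology X ∧
        TopologicalSpace.SeparableSpace X ∧ TotallyDisconnectedSpace X) ∧
      (CompactSpace Y ∧ T6Space Y ∧ HereditarilyLindelofSpace Y ∧ FirstCountableTopology Y ∧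
        TopologicalSpace.SeparableSpace Y ∧ TotallyDisconnectedSpace Y) ∧
      Continuous f ∧ Function.Surjective f ∧
      (∀ a b c : X, f a = f b → f b = f c → a = b ∨ b = c ∨ a = c) ∧
      Extendial X ∧ TExtendial X ∧ ¬ Extendial Y ∧ ¬ TExtendial Y := by
  obtain ⟨ν, hν⟩ := exists_nu
  have hcont : Continuous (rangeFactorization (qm ν)) := (continuous_qm ν).subtype_mk _
  have hsurj : Function.Surjective (rangeFactorization (qm ν)) := rangeFactorization_surjective
  have hHX : HereditarilyLindelofSpace (OnePoint ℕ × DA) := hereditarilyLindelof_prod
  have hHY : HereditarilyLindelofSpace (range (qm ν)) := hereditarilyLindelof_of_surj hcont hsurj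
  have h2 : TwoToOne (rangeFactorization (qm ν)) := by
    intro a b c h1 h2
    exact qm_twoToOne ν hν a b c (congrArg Subtype.val h1) (congrArg Subtype.val h2)
  have hCY : CompactSpace (range (qm ν)) := hsurj.compactSpace hcont
  have hFY : FirstCountableTopology (range (qm ν)) :=
    firstCountable_of_closed hcont hcont.isClosedMap hsurj h2.finite
  have hE : Extendial (OnePoint ℕ × DA) := extendial_prod fun A hA hne => DA.retract A hA hne
  have hN : ¬ TExtendial (range (qm ν)) := not_tExtendial ν hν
  refine ⟨OnePoint ℕ × DA, range (qm ν), inferInstance, inferInstance, rangeFactorization (qm ν),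
    ⟨inferInstance, perfectlyNormal, hHX, inferInstance, inferInstance, inferInstance⟩,
    ⟨hCY, perfectlyNormal, hHY, hFY, ?_, inferInstance⟩, hcont, hsurj, h2, hE, hE.tExtendial,
    fun h => hN h.tExtendial, hN⟩
  exact hsurj.denseRange.separableSpace hcont

end Pool.Agent.Results.MP_a74b27_gt.TwoToOneImage
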